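import Pool.Agent.H714.Term.Defs

namespace Pool.Agent.H714.Term

open Finset

variable {K : Type} [Field K]

/-- `TermRank` with arbitrary index types. -/
def TT (K : Type) [Field K] (α β γ P σ : Type) [DecidableEq α] [DecidableEq β] [DecidableEq γ]
    [Fintype P] [Fintype σ] : Prop :=
  ∃ (x : σ → α → β → K) (y : σ → P → β → γ → K) (z : σ → P → γ → α → K),
    ∀ (i i' : α) (j j' : β) (k k' : γ),
      (∑ s, x s i j * ∑ l, y s l j' k * z s l k' i') = if i = i' ∧ j = j' ∧ k = k' then 1 else 0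

section
variable {α β γ α' β' γ' P σ σ' : Type} [DecidableEq α] [DecidableEq β] [DecidableEq γ]
  [DecidableEq α'] [DecidableEq β'] [DecidableEq γ'] [Fintype P] [Fintype σ] [Fintype σ']
  [DecidableEq P]

theorem TT.comp (h : TT K α β γ P σ) (f : α' → α) (g : β' → β) (e : γ' → γ)
    (hf : Function.Injective f) (hg : Function.Injective g) (he : Function.Injective e) :
    TT K α' β' γ' P σ := by
  obtain ⟨x, y, z, h⟩ := h
  refine ⟨fun s i j => x s (f i) (g j), fun s l j k => y s l (g j) (e k),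
    fun s l k i => z s l (e k) (f i), fun i i' j j' k k' => ?_⟩
  rw [h]
  simp only [hf.eq_iff, hg.eq_iff, he.eq_iff]

theorem TT.index (h : TT K α β γ P σ) (e : σ' ≃ σ) : TT K α β γ P σ' := by
  obtain ⟨x, y, z, h⟩ := h
  refine ⟨fun s => x (e s), fun s => y (e s), fun s => z (e s), fun i i' j j' k k' => ?_⟩
  rw [← h]
  exact Fintype.sum_equiv e _ _ fun _ => rfl

/-- The catalyst step. -/
theorem TT.mul (h : TT K α β (γ × P) P σ) (h' : TT K α' β' (γ' × P) P σ') :
    TT K (α × α') (β × β') ((γ × γ') × P) P (σ × σ') := by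
  obtain ⟨x, y, z, h⟩ := h
  obtain ⟨x', y', z', h'⟩ := h'
  refine ⟨fun s i j => x s.1 i.1 j.1 * x' s.2 i.2 j.2,
    fun s l j k => ∑ m, y s.1 l j.1 (k.1.1, m) * y' s.2 m j.2 (k.1.2, k.2),
    fun s l k i => ∑ m, z s.1 l (k.1.1, m) i.1 * z' s.2 m (k.1.2, k.2) i.2, ?_⟩
  rintro ⟨i1, i2⟩ ⟨i1', i2'⟩ ⟨j1, j2⟩ ⟨j1', j2'⟩ ⟨⟨k1, k2⟩, p⟩ ⟨⟨k1', k2'⟩, p'⟩
  dsimp only
  rw [Fintype.sum_prod_type]
  have e1 : ∀ (s : σ) (s' : σ'), x s i1 j1 * x' s' i2 j2 *
      (∑ l, (∑ m, y s l j1' (k1, m) * y' s' m j2' (k2, p)) *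
        ∑ m, z s l (k1', m) i1' * z' s' m (k2', p') i2') =
      ∑ m, ∑ m', x' s' i2 j2 * (y' s' m j2' (k2, p) * z' s' m' (k2', p') i2') *
        (x s i1 j1 * ∑ l, y s l j1' (k1, m) * z s l (k1', m') i1') := by
    intro s s'
    simp only [sum_mul, mul_sum]
    rw [sum_comm]
    conv_lhs => enter [2, m]; rw [sum_comm]
    rw [sum_comm]
    refine sum_congr rfl fun m _ => ?_
    refine sum_congr rfl fun m' _ => sum_congr rfl fun l _ => ?_
    ring
  simp only [e1]
  rw [sum_comm]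
  have e2 : ∀ s' : σ', (∑ s : σ, ∑ m, ∑ m', x' s' i2 j2 *
      (y' s' m j2' (k2, p) * z' s' m' (k2', p') i2') *
        (x s i1 j1 * ∑ l, y s l j1' (k1, m) * z s l (k1', m') i1')) =
      (x' s' i2 j2 * ∑ m, y' s' m j2' (k2, p) * z' s' m (k2', p') i2') *
        if i1 = i1' ∧ j1 = j1' ∧ k1 = k1' then 1 else 0 := by
    intro s'
    rw [sum_comm, mul_sum, sum_mul]
    refine sum_congr rfl fun m _ => ?_
    rw [sum_comm]
    simp only [← mul_sum, h, Prod.mk.injEq]
    rw [sum_eq_single m]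
    · by_cases hh : i1 = i1' ∧ j1 = j1' ∧ k1 = k1'
      · rw [if_pos hh, if_pos ⟨hh.1, hh.2.1, hh.2.2, rfl⟩]
      · rw [if_neg hh, if_neg fun hc => hh ⟨hc.1, hc.2.1, hc.2.2.1⟩, mul_zero]
    · intro m' _ hm'
      rw [if_neg fun hc => hm' hc.2.2.2.symm, mul_zero]
    · simp
  simp only [e2]
  rw [← sum_mul, h']
  simp only [Prod.mk.injEq]
  by_cases h1 : i1 = i1' ∧ j1 = j1' ∧ k1 = k1'
  · obtain ⟨rfl, rfl, rfl⟩ := h1
    simp
  · rw [if_neg h1, mul_zero, if_neg fun hc => h1 ⟨hc.1.1, hc.2.1.1, hc.2.2.1.1⟩]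

theorem TT.one : TT K Unit Unit (Unit × P) P Unit := by
  refine ⟨fun _ _ _ => 1, fun _ l _ k => if k.2 = l then 1 else 0,
    fun _ l k _ => if k.2 = l then 1 else 0, ?_⟩
  rintro ⟨⟩ ⟨⟩ ⟨⟩ ⟨⟩ ⟨⟨⟩, p⟩ ⟨⟨⟩, p'⟩
  simp [eq_comm]

end

theorem termRank_iff {a b c ρ r : ℕ} :
    TermRank K a b c ρ r ↔ TT K (Fin a) (Fin b) (Fin c) (Fin ρ) (Fin r) := Iff.rfl

theorem TermRank.mono {a b c a' b' c' ρ r : ℕ} (h : TermRank K a b c ρ r) (ha : a' ≤ a)
    (hb : b' ≤ b) (hc : c' ≤ c) : TermRank K a' b' c' ρ r :=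
  TT.comp h _ _ _ (Fin.castLE_injective ha) (Fin.castLE_injective hb) (Fin.castLE_injective hc)

/-- Powers with the catalyst. -/
theorem termRank_pow {a b c ρ r : ℕ} (h : TermRank K a b (c * ρ) ρ r) (N : ℕ) :
    TermRank K (a ^ N) (b ^ N) (c ^ N * ρ) ρ (r ^ N) := by
  induction N with
  | zero =>
    have h1 := TT.one (K := K) (P := Fin ρ)
    have h2 := h1.comp (α' := Fin (a ^ 0)) (β' := Fin (b ^ 0)) (γ' := Fin (c ^ 0 * ρ))
      (fun _ => ()) (fun _ => ()) (fun k => ((), Fin.cast (by simp) k))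
      (fun i j _ => by have := i.2; have := j.2; simp only [pow_zero] at *; ext; omega)
      (fun i j _ => by have := i.2; have := j.2; simp only [pow_zero] at *; ext; omega)
      (fun i j hij => by
        have := congrArg (fun t : Unit × Fin ρ => (t.2 : ℕ)) hij
        exact Fin.ext this)
    exact h2.index (Equiv.ofBijective (fun _ => ()) ⟨fun i j _ => by
      have := i.2; have := j.2; simp only [pow_zero] at *; ext; omega, fun _ => ⟨⟨0, by simp⟩, rfl⟩⟩)
  | succ N ih =>
    have h1 : TT K (Fin a) (Fin b) (Fin c × Fin ρ) (Fin ρ) (Fin r) :=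
      TT.comp h id id finProdFinEquiv Function.injective_id Function.injective_id
        finProdFinEquiv.injective
    have h2 : TT K (Fin (a ^ N)) (Fin (b ^ N)) (Fin (c ^ N) × Fin ρ) (Fin ρ) (Fin (r ^ N)) :=
      TT.comp ih id id finProdFinEquiv Function.injective_id Function.injective_id
        finProdFinEquiv.injective
    have h3 := h2.mul h1
    have e : ∀ m : ℕ, m ^ N * m = m ^ (N + 1) := fun m => (pow_succ m N).symm
    refine (h3.comp (α' := Fin (a ^ (N + 1))) (β' := Fin (b ^ (N + 1)))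
      (γ' := Fin (c ^ (N + 1) * ρ))
      (fun i => finProdFinEquiv.symm (Fin.cast (e a).symm i))
      (fun i => finProdFinEquiv.symm (Fin.cast (e b).symm i))
      (fun i => Prod.map (fun x => finProdFinEquiv.symm (Fin.cast (e c).symm x)) id
        (finProdFinEquiv.symm i)) ?_ ?_ ?_).index
      ((finCongr (e r).symm).trans finProdFinEquiv.symm)
    · exact finProdFinEquiv.symm.injective.comp (Fin.cast_injective _)
    · exact finProdFinEquiv.symm.injective.comp (Fin.cast_injective _)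
    · exact (Function.Injective.prodMap (finProdFinEquiv.symm.injective.comp
        (Fin.cast_injective _)) Function.injective_id).comp finProdFinEquiv.symm.injective

theorem RectRank.ofType {a b c : ℕ} {σ : Type} [Fintype σ] (x : σ → Fin a → Fin b → K)
    (y : σ → Fin b → Fin c → K) (z : σ → Fin c → Fin a → K)
    (h : ∀ (i i' : Fin a) (j j' : Fin b) (k k' : Fin c),
      (∑ s, x s i j * (y s j' k * z s k' i')) = if i = i' ∧ j = j' ∧ k = k' then 1 else 0)
    {r : ℕ} (hr : Fintype.card σ ≤ r) : RectRank K a b c r := by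
  classical
  obtain ⟨d, rfl⟩ := Nat.exists_eq_add_of_le hr
  let f := (Fintype.equivFin σ).symm
  refine ⟨fun s => Fin.addCases (fun t => x (f t)) (fun _ => 0) s,
    fun s => Fin.addCases (fun t => y (f t)) (fun _ => 0) s,
    fun s => Fin.addCases (fun t => z (f t)) (fun _ => 0) s, ?_⟩
  intro i i' j j' k k'
  rw [← h, Fin.sum_univ_add]
  simp only [Fin.addCases_left, Fin.addCases_right, Pi.zero_apply, mul_zero, sum_const_zero,
    add_zero]
  exact Fintype.sum_equiv f _ _ fun s => rfl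

/-- All terms of rank at most `ρ`: the rank of the tensor is at most `ρ r`. -/
theorem TermRank.rect {a b c ρ r : ℕ} (h : TermRank K a b c ρ r) : RectRank K a b c (r * ρ) := by
  obtain ⟨x, y, z, h⟩ := h
  refine RectRank.ofType (σ := Fin r × Fin ρ) (fun s => x s.1) (fun s => y s.1 s.2)
    (fun s => z s.1 s.2) ?_ (by simp)
  intro i i' j j' k k'
  rw [← h, Fintype.sum_prod_type]
  simp only [mul_sum]

/-- The main inequality. -/
theorem rect_of_term {a b c ρ r : ℕ} (hρ : 1 ≤ ρ) (h : TermRank K a b (c * ρ) ρ r) (N : ℕ) :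
    RectRank K (a ^ N) (b ^ N) (c ^ N) (r ^ N * ρ) :=
  ((termRank_pow h N).mono le_rfl le_rfl (Nat.le_mul_of_pos_right _ hρ)).rect

/-- The converse direction. -/
theorem term_of_rect {a b c m ρ r : ℕ} (h : RectRank K a b m r) (hc : c ≤ m * ρ) :
    TermRank K a b c ρ r := by
  obtain ⟨x, y, z, h⟩ := h
  have h1 : TT K (Fin a) (Fin b) (Fin m × Fin ρ) (Fin ρ) (Fin r) := by
    refine ⟨x, fun s l j k => if k.2 = l then y s j k.1 else 0,
      fun s l k i => if k.2 = l then z s k.1 i else 0, ?_⟩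
    rintro i i' j j' ⟨k, l⟩ ⟨k', l'⟩
    simp only [ite_mul, zero_mul, mul_ite, mul_zero, sum_ite_eq, mem_univ, if_true,
      Prod.mk.injEq]
    by_cases hl : l' = l
    · subst hl
      simpa using h i i' j j' k k'
    · have hl' : ¬ l = l' := fun e => hl e.symm
      simp [hl, hl']
  exact (h1.comp (γ' := Fin c) id id (fun k => finProdFinEquiv.symm (Fin.castLE hc k))
    Function.injective_id Function.injective_id
    (finProdFinEquiv.symm.injective.comp (Fin.castLE_injective hc)))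

theorem RectRank.mono {a b c a' b' c' r : ℕ} (h : RectRank K a b c r) (ha : a' ≤ a)
    (hb : b' ≤ b) (hc : c' ≤ c) : RectRank K a' b' c' r := by
  obtain ⟨x, y, z, h⟩ := h
  refine ⟨fun s i j => x s (Fin.castLE ha i) (Fin.castLE hb j),
    fun s j k => y s (Fin.castLE hb j) (Fin.castLE hc k),
    fun s k i => z s (Fin.castLE hc k) (Fin.castLE ha i), ?_⟩
  intro i i' j j' k k'
  rw [h]
  simp only [Fin.castLE_inj]

theorem RectRank.mono_r {a b c r r' : ℕ} (h : RectRank K a b c r) (hr : r ≤ r') :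
    RectRank K a b c r' := by
  obtain ⟨x, y, z, h⟩ := h
  exact RectRank.ofType x y z h (by simpa using hr)

/-- Blocks in the last direction. -/
theorem RectRank.blocks {a b c r : ℕ} (h : RectRank K a b c r) (q : ℕ) {c' : ℕ}
    (hc : c' ≤ q * c) : RectRank K a b c' (q * r) := by
  obtain ⟨x, y, z, h⟩ := h
  let e : Fin c' → Fin q × Fin c := fun k => finProdFinEquiv.symm (Fin.castLE hc k)
  have he : Function.Injective e := finProdFinEquiv.symm.injective.comp (Fin.castLE_injective hc)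
  refine RectRank.ofType (σ := Fin q × Fin r) (fun s => x s.2)
    (fun s j k => if (e k).1 = s.1 then y s.2 j (e k).2 else 0)
    (fun s k i => if (e k).1 = s.1 then z s.2 (e k).2 i else 0) ?_ (by simp)
  intro i i' j j' k k'
  rw [Fintype.sum_prod_type, sum_eq_single (e k').1]
  · by_cases hk : (e k).1 = (e k').1
    · simp only [hk, if_true, h]
      refine if_congr ?_ rfl rfl
      rw [← he.eq_iff (a := k) (b := k'), Prod.ext_iff]
      simp [hk]
    · simp only [hk, if_false, zero_mul, mul_zero, sum_const_zero]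
      rw [if_neg]
      rintro ⟨-, -, rfl⟩
      exact hk rfl
  · intro q' _ hq
    refine sum_eq_zero fun s _ => ?_
    simp [Ne.symm hq]
  · simp

end Pool.Agent.H714.Term
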