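import Mathlib

/-!
# Matrix multiplication with terms of bounded rank: definitions
-/

namespace Pool.Agent.H714.Term

open Finset

/-- The tensor of the multiplication of `a × b` and `b × c` matrices over `K` is a sum of `r` rank one
tensors. -/
def RectRank (K : Type) [Field K] (a b c r : ℕ) : Prop :=
  ∃ (x : Fin r → Fin a → Fin b → K) (y : Fin r → Fin b → Fin c → K) (z : Fin r → Fin c → Fin a → K),
    ∀ (i i' : Fin a) (j j' : Fin b) (k k' : Fin c),
      (∑ s, x s i j * (y s j' k * z s k' i')) = if i = i' ∧ j = j' ∧ k = k' then 1 else 0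

/-- The tensor of the multiplication of `a × b` and `b × c` matrices over `K` is a sum of `r` tensors
`x ⊗ M` where `x` is a linear form of the first matrix and `M` a bilinear form of rank at most `ρ` of
the second and the third matrix. -/
def TermRank (K : Type) [Field K] (a b c ρ r : ℕ) : Prop :=
  ∃ (x : Fin r → Fin a → Fin b → K) (y : Fin r → Fin ρ → Fin b → Fin c → K)
    (z : Fin r → Fin ρ → Fin c → Fin a → K),
    ∀ (i i' : Fin a) (j j' : Fin b) (k k' : Fin c),
      (∑ s, x s i j * ∑ l, y s l j' k * z s l k' i') = if i = i' ∧ j = j' ∧ k = k' then 1 else 0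

/-- The infimum of the `τ` such that `P n r` holds for some `r = O (n ^ τ)`. -/
noncomputable def growth (P : ℕ → ℕ → Prop) : ℝ :=
  sInf {τ : ℝ | ∃ C : ℝ, ∀ n : ℕ, 1 ≤ n → ∃ r : ℕ, (r : ℝ) ≤ C * (n : ℝ) ^ τ ∧ P n r}

/-- The exponent `ω (1, 1, β)` of the multiplication of an `n × n` and an `n × n ^ β` matrix. -/
noncomputable def rectOmega (K : Type) [Field K] (β : ℝ) : ℝ :=
  growth fun n r => RectRank K n n ⌊(n : ℝ) ^ β⌋₊ r

/-- The exponent of the number of terms of rank at most `n ^ t`. -/
noncomputable def termOmega (K : Type) [Field K] (t : ℝ) : ℝ :=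
  growth fun n r => TermRank K n n n ⌊(n : ℝ) ^ t⌋₊ r

end Pool.Agent.H714.Term
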