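import Pool.Agent.H714.Term.Cat

namespace Pool.Agent.H714.Term

open Finset Filter

variable {K : Type} [Field K]

/-- `P n r` holds for some `r = O(n ^ τ)`. -/
def Adm (P : ℕ → ℕ → Prop) (τ : ℝ) : Prop :=
  ∃ C : ℝ, ∀ n : ℕ, 1 ≤ n → ∃ r : ℕ, (r : ℝ) ≤ C * (n : ℝ) ^ τ ∧ P n r

theorem growth_def (P : ℕ → ℕ → Prop) : growth P = sInf {τ | Adm P τ} := rfl

theorem sq_le_of_term {n ρ r : ℕ} (h : TermRank K n n n ρ r) : n ^ 2 ≤ r := by
  obtain ⟨x, y, z, h⟩ := h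
  have hspan : Submodule.span K (Set.range fun s : Fin r => fun p : Fin n × Fin n => x s p.1 p.2) =
      ⊤ := by
    rw [eq_top_iff, ← (Pi.basisFun K (Fin n × Fin n)).span_eq, Submodule.span_le]
    rintro _ ⟨⟨i0, j0⟩, rfl⟩
    have : (Pi.basisFun K (Fin n × Fin n)) (i0, j0) =
        ∑ s, (∑ l, y s l j0 i0 * z s l i0 i0) • (fun p : Fin n × Fin n => x s p.1 p.2) := by
      funext p
      have h1 := h p.1 i0 p.2 j0 i0 i0
      simp only [Pi.basisFun_apply, Finset.sum_apply, Pi.smul_apply, smul_eq_mul]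
      have h2 : (∑ s, (∑ l, y s l j0 i0 * z s l i0 i0) * x s p.1 p.2) =
          ∑ s, x s p.1 p.2 * ∑ l, y s l j0 i0 * z s l i0 i0 :=
        sum_congr rfl fun s _ => by ring
      rw [h2, h1, Pi.single_apply]
      refine if_congr ?_ rfl rfl
      rw [Prod.ext_iff]
      simp
    rw [SetLike.mem_coe, this]
    exact Submodule.sum_mem _ fun s _ => Submodule.smul_mem _ _ (Submodule.subset_span ⟨s, rfl⟩)
  have h1 := finrank_range_le_card (R := K)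
    (fun s : Fin r => fun p : Fin n × Fin n => x s p.1 p.2)
  rw [Set.finrank, hspan, finrank_top] at h1
  simp only [Module.finrank_fintype_fun_eq_card, Fintype.card_prod, Fintype.card_fin] at h1
  rw [pow_two]; exact h1

theorem two_le_of_adm {t τ : ℝ}
    (h : Adm (fun n r => TermRank K n n n ⌊(n : ℝ) ^ t⌋₊ r) τ) : 2 ≤ τ := by
  obtain ⟨C, h⟩ := h
  by_contra hτ
  push Not at hτ
  have h1 : Tendsto (fun n : ℕ => (n : ℝ) ^ (2 - τ)) atTop atTop :=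
    (tendsto_rpow_atTop (by linarith)).comp tendsto_natCast_atTop_atTop
  obtain ⟨n, hn1, hn2⟩ := ((eventually_ge_atTop 1).and (h1.eventually (eventually_gt_atTop C))).exists
  obtain ⟨r, hr, hP⟩ := h n hn1
  have h2 := sq_le_of_term hP
  have h3 : ((n : ℝ)) ^ 2 ≤ C * (n : ℝ) ^ τ := by
    refine le_trans ?_ hr
    exact_mod_cast h2
  have hn0 : (0 : ℝ) < n := by exact_mod_cast hn1
  have h4 : (n : ℝ) ^ (2 - τ) * (n : ℝ) ^ τ = (n : ℝ) ^ 2 := by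
    rw [← Real.rpow_add hn0]
    norm_num
  have h5 : C * (n : ℝ) ^ τ < (n : ℝ) ^ (2 - τ) * (n : ℝ) ^ τ := by
    gcongr
  linarith

theorem one_le_floor {x : ℝ} (hx : 1 ≤ x) : 1 ≤ ⌊x⌋₊ := by
  rw [Nat.one_le_floor_iff]; exact hx

theorem le_two_floor {x : ℝ} (hx : 1 ≤ x) : x ≤ 2 * (⌊x⌋₊ : ℝ) := by
  have h1 := Nat.lt_floor_add_one x
  have h2 : (1 : ℝ) ≤ (⌊x⌋₊ : ℝ) := by exact_mod_cast one_le_floor hx
  linarith

theorem adm_term_of_rect {t τ : ℝ} (ht0 : 0 ≤ t) (ht1 : t ≤ 1)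
    (h : Adm (fun n r => RectRank K n n ⌊(n : ℝ) ^ (1 - t)⌋₊ r) τ) :
    Adm (fun n r => TermRank K n n n ⌊(n : ℝ) ^ t⌋₊ r) τ := by
  obtain ⟨C, h⟩ := h
  refine ⟨4 * C, fun n hn => ?_⟩
  obtain ⟨r, hr, hP⟩ := h n hn
  have hn1 : (1 : ℝ) ≤ n := by exact_mod_cast hn
  have h1 : (1 : ℝ) ≤ (n : ℝ) ^ t := Real.one_le_rpow hn1 ht0
  have h2 : (1 : ℝ) ≤ (n : ℝ) ^ (1 - t) := Real.one_le_rpow hn1 (by linarith)
  have h3 := le_two_floor h1
  have h4 := le_two_floor h2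
  have h5 : (n : ℝ) = (n : ℝ) ^ (1 - t) * (n : ℝ) ^ t := by
    rw [← Real.rpow_add (by linarith)]; norm_num
  refine ⟨4 * r, ?_, term_of_rect (hP.blocks 4 le_rfl) ?_⟩
  · push_cast; linarith
  · have : (n : ℝ) ≤ 4 * (⌊(n : ℝ) ^ (1 - t)⌋₊ : ℝ) * (⌊(n : ℝ) ^ t⌋₊ : ℝ) := by
      calc (n : ℝ) = (n : ℝ) ^ (1 - t) * (n : ℝ) ^ t := h5
        _ ≤ (2 * (⌊(n : ℝ) ^ (1 - t)⌋₊ : ℝ)) * (2 * (⌊(n : ℝ) ^ t⌋₊ : ℝ)) := by gcongr
        _ = _ := by ring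
    exact_mod_cast this

theorem exists_base {t δ C : ℝ} (ht0 : 0 ≤ t) (ht1 : t ≤ 1) (hδ : 0 < δ) :
    ∃ b : ℕ, 2 ≤ b ∧ C ≤ (b : ℝ) ^ δ ∧
      (b : ℝ) ^ ((1 - t) / (1 + δ)) ≤ ((b / ⌊(b : ℝ) ^ t⌋₊ : ℕ) : ℝ) := by
  have T1 : Tendsto (fun n : ℕ => (n : ℝ) ^ δ) atTop atTop :=
    (tendsto_rpow_atTop hδ).comp tendsto_natCast_atTop_atTop
  have key : ∀ b : ℕ, 1 ≤ b → (b : ℝ) ^ (1 - t) ≤ 2 * ((b / ⌊(b : ℝ) ^ t⌋₊ : ℕ) : ℝ) ∧
      (1 : ℝ) ≤ ((b / ⌊(b : ℝ) ^ t⌋₊ : ℕ) : ℝ) := by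
    intro b hb
    have hb1 : (1 : ℝ) ≤ b := by exact_mod_cast hb
    have h1 : (1 : ℝ) ≤ (b : ℝ) ^ t := Real.one_le_rpow hb1 ht0
    have h2 : ((⌊(b : ℝ) ^ t⌋₊ : ℕ) : ℝ) ≤ (b : ℝ) ^ t := Nat.floor_le (by linarith)
    have h3 : (1 : ℝ) ≤ (⌊(b : ℝ) ^ t⌋₊ : ℝ) := by exact_mod_cast one_le_floor h1
    have h4 : (b : ℝ) ^ t ≤ b := by
      calc (b : ℝ) ^ t ≤ (b : ℝ) ^ (1 : ℝ) := Real.rpow_le_rpow_of_exponent_le hb1 ht1
        _ = b := Real.rpow_one _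
    have h5 : (b : ℝ) ^ (1 - t) ≤ b / (⌊(b : ℝ) ^ t⌋₊ : ℝ) := by
      rw [le_div_iff₀ (by linarith)]
      calc (b : ℝ) ^ (1 - t) * (⌊(b : ℝ) ^ t⌋₊ : ℝ) ≤ (b : ℝ) ^ (1 - t) * (b : ℝ) ^ t := by gcongr
        _ = b := by rw [← Real.rpow_add (by linarith)]; norm_num
    have h6 : (1 : ℝ) ≤ b / (⌊(b : ℝ) ^ t⌋₊ : ℝ) := by
      rw [le_div_iff₀ (by linarith)]; linarith
    have h7 : ⌊(b : ℝ) / (⌊(b : ℝ) ^ t⌋₊ : ℝ)⌋₊ = b / ⌊(b : ℝ) ^ t⌋₊ :=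
      Nat.floor_div_eq_div _ _
    rw [← h7]
    exact ⟨h5.trans (le_two_floor h6), by exact_mod_cast one_le_floor h6⟩
  rcases eq_or_lt_of_le ht1 with rfl | htlt
  · obtain ⟨b, hb2, hbC⟩ := ((eventually_ge_atTop 2).and
      (T1.eventually (eventually_ge_atTop C))).exists
    refine ⟨b, hb2, hbC, ?_⟩
    simpa using (key b (by omega)).2
  · have hε : 0 < (1 - t) - (1 - t) / (1 + δ) := by
      have : (1 - t) / (1 + δ) < 1 - t := by
        rw [div_lt_iff₀ (by linarith)]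
        nlinarith
      linarith
    have T2 : Tendsto (fun n : ℕ => (n : ℝ) ^ ((1 - t) - (1 - t) / (1 + δ))) atTop atTop :=
      (tendsto_rpow_atTop hε).comp tendsto_natCast_atTop_atTop
    obtain ⟨b, hb2, hbC, hb3⟩ := ((eventually_ge_atTop 2).and
      ((T1.eventually (eventually_ge_atTop C)).and
        (T2.eventually (eventually_ge_atTop 2)))).exists
    refine ⟨b, hb2, hbC, ?_⟩
    have hb0 : (0 : ℝ) < b := by exact_mod_cast (by omega : 0 < b)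
    have h1 := (key b (by omega)).1
    have h2 : (b : ℝ) ^ (1 - t) = (b : ℝ) ^ ((1 - t) - (1 - t) / (1 + δ)) *
        (b : ℝ) ^ ((1 - t) / (1 + δ)) := by
      rw [← Real.rpow_add hb0]; congr 1; ring
    have h3 : 2 * (b : ℝ) ^ ((1 - t) / (1 + δ)) ≤ (b : ℝ) ^ (1 - t) := by
      rw [h2]; gcongr
    linarith

theorem adm_rect_of_term {t τ τ' : ℝ} (ht0 : 0 ≤ t) (ht1 : t ≤ 1) (hτ : τ < τ')
    (h : Adm (fun n r => TermRank K n n n ⌊(n : ℝ) ^ t⌋₊ r) τ) :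
    Adm (fun n r => RectRank K n n ⌊(n : ℝ) ^ (1 - t)⌋₊ r) τ' := by
  have h2 := two_le_of_adm h
  obtain ⟨C, h⟩ := h
  -- the small parameter
  obtain ⟨δ, hδ0, hδ⟩ : ∃ δ : ℝ, 0 < δ ∧ (1 + δ) * (τ + δ) ≤ τ' := by
    refine ⟨min 1 ((τ' - τ) / (2 + τ)), lt_min one_pos (div_pos (by linarith) (by linarith)), ?_⟩
    set δ := min 1 ((τ' - τ) / (2 + τ)) with hδ
    have h1 : δ ≤ 1 := min_le_left _ _
    have h3 : δ ≤ (τ' - τ) / (2 + τ) := min_le_right _ _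
    have h4 : 0 < δ := lt_min one_pos (div_pos (by linarith) (by linarith))
    rw [le_div_iff₀ (by linarith)] at h3
    nlinarith
  obtain ⟨b, hb2, hbC, hbc⟩ := exists_base (C := C) ht0 ht1 hδ0
  have hb1 : (1 : ℝ) < b := by exact_mod_cast (by omega : 1 < b)
  have hb0 : (0 : ℝ) < b := by linarith
  obtain ⟨r, hr, hP⟩ := h b (by omega)
  set ρ := ⌊(b : ℝ) ^ t⌋₊ with hρ
  have hρ1 : 1 ≤ ρ := one_le_floor (Real.one_le_rpow hb1.le ht0)
  have hρb : (ρ : ℝ) ≤ b := by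
    calc (ρ : ℝ) ≤ (b : ℝ) ^ t := Nat.floor_le (by positivity)
      _ ≤ (b : ℝ) ^ (1 : ℝ) := Real.rpow_le_rpow_of_exponent_le hb1.le ht1
      _ = b := Real.rpow_one _
  have hP' : TermRank K b b ((b / ρ) * ρ) ρ r := hP.mono le_rfl le_rfl (Nat.div_mul_le_self _ _)
  have hr' : (r : ℝ) ≤ (b : ℝ) ^ (τ + δ) := by
    rw [Real.rpow_add hb0, mul_comm]
    exact hr.trans (by gcongr)
  refine ⟨(b : ℝ) ^ (τ + δ) * b, fun n hn => ?_⟩
  have hn1 : (1 : ℝ) ≤ n := by exact_mod_cast hn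
  have hx1 : (1 : ℝ) ≤ (n : ℝ) ^ (1 + δ) := Real.one_le_rpow hn1 (by linarith)
  have hlog : 0 ≤ Real.logb b ((n : ℝ) ^ (1 + δ)) := Real.logb_nonneg hb1 hx1
  set N := ⌈Real.logb b ((n : ℝ) ^ (1 + δ))⌉₊ with hN
  have hN1 : (n : ℝ) ^ (1 + δ) ≤ (b : ℝ) ^ N := by
    rw [← Real.rpow_natCast, ← Real.logb_le_iff_le_rpow hb1 (by linarith)]
    exact Nat.le_ceil _
  have hN2 : (b : ℝ) ^ N ≤ (n : ℝ) ^ (1 + δ) * b := by
    have h1 : (N : ℝ) < Real.logb b ((n : ℝ) ^ (1 + δ)) + 1 := Nat.ceil_lt_add_one hlog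
    rw [← Real.rpow_natCast]
    calc (b : ℝ) ^ (N : ℝ) ≤ (b : ℝ) ^ (Real.logb b ((n : ℝ) ^ (1 + δ)) + 1) :=
          Real.rpow_le_rpow_of_exponent_le hb1.le h1.le
      _ = (n : ℝ) ^ (1 + δ) * b := by
          rw [Real.rpow_add hb0, Real.rpow_logb hb0 hb1.ne' (by linarith), Real.rpow_one]
  refine ⟨r ^ N * ρ, ?_, (rect_of_term hρ1 hP' N).mono ?_ ?_ ?_⟩
  · push_cast
    have e1 : (r : ℝ) ^ N ≤ ((b : ℝ) ^ N) ^ (τ + δ) := by
      rw [← Real.rpow_natCast ((b : ℝ)) N, ← Real.rpow_mul hb0.le, mul_comm, Real.rpow_mul hb0.le,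
        Real.rpow_natCast]
      gcongr
    calc (r : ℝ) ^ N * ρ ≤ ((b : ℝ) ^ N) ^ (τ + δ) * b := by gcongr
      _ ≤ ((n : ℝ) ^ (1 + δ) * b) ^ (τ + δ) * b := by
          gcongr
      _ = (b : ℝ) ^ (τ + δ) * b * (n : ℝ) ^ ((1 + δ) * (τ + δ)) := by
          rw [Real.mul_rpow (by positivity) hb0.le, Real.rpow_mul (by positivity)]; ring
      _ ≤ (b : ℝ) ^ (τ + δ) * b * (n : ℝ) ^ τ' := by
          gcongr
  · have : (n : ℝ) ≤ (b : ℝ) ^ N := by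
      refine le_trans ?_ hN1
      calc (n : ℝ) = (n : ℝ) ^ (1 : ℝ) := (Real.rpow_one _).symm
        _ ≤ (n : ℝ) ^ (1 + δ) := Real.rpow_le_rpow_of_exponent_le hn1 (by linarith)
    exact_mod_cast this
  · have : (n : ℝ) ≤ (b : ℝ) ^ N := by
      refine le_trans ?_ hN1
      calc (n : ℝ) = (n : ℝ) ^ (1 : ℝ) := (Real.rpow_one _).symm
        _ ≤ (n : ℝ) ^ (1 + δ) := Real.rpow_le_rpow_of_exponent_le hn1 (by linarith)
    exact_mod_cast this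
  · have h3 : (n : ℝ) ^ (1 - t) ≤ ((b / ρ : ℕ) : ℝ) ^ N := by
      calc (n : ℝ) ^ (1 - t) = ((n : ℝ) ^ (1 + δ)) ^ ((1 - t) / (1 + δ)) := by
            rw [← Real.rpow_mul (by linarith)]
            congr 1
            field_simp
        _ ≤ ((b : ℝ) ^ N) ^ ((1 - t) / (1 + δ)) :=
            Real.rpow_le_rpow (by positivity) hN1 (div_nonneg (by linarith) (by linarith))
        _ = ((b : ℝ) ^ ((1 - t) / (1 + δ))) ^ N := by
            rw [← Real.rpow_natCast ((b : ℝ)) N, ← Real.rpow_mul hb0.le, mul_comm,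
              Real.rpow_mul hb0.le, Real.rpow_natCast]
        _ ≤ ((b / ρ : ℕ) : ℝ) ^ N := by gcongr
    have h4 : ((⌊(n : ℝ) ^ (1 - t)⌋₊ : ℕ) : ℝ) ≤ (((b / ρ) ^ N : ℕ) : ℝ) := by
      push_cast
      exact (Nat.floor_le (by positivity)).trans h3
    exact_mod_cast h4

theorem growth_eq_of {P Q : ℕ → ℕ → Prop} (hne : ∃ τ, Adm P τ) (hb : ∀ τ, Adm P τ → 0 ≤ τ)
    (h1 : ∀ τ τ', Adm P τ → τ < τ' → Adm Q τ') (h2 : ∀ τ, Adm Q τ → Adm P τ) :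
    growth Q = growth P := by
  rw [growth_def, growth_def]
  obtain ⟨τ0, h0⟩ := hne
  have bP : BddBelow {τ | Adm P τ} := ⟨0, fun τ h => hb τ h⟩
  have bQ : BddBelow {τ | Adm Q τ} := ⟨0, fun τ h => hb τ (h2 τ h)⟩
  have nQ : {τ | Adm Q τ}.Nonempty := ⟨τ0 + 1, h1 τ0 _ h0 (by linarith)⟩
  refine le_antisymm ?_ (csInf_le_csInf bP nQ fun τ h => h2 τ h)
  refine le_csInf ⟨τ0, h0⟩ fun τ h => ?_
  refine le_of_forall_pos_le_add fun ε hε => ?_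
  exact csInf_le bQ (h1 τ _ h (by linarith))

theorem rect_trivial (a b c : ℕ) : RectRank K a b c (a * b * c) := by
  refine RectRank.ofType (σ := Fin a × Fin b × Fin c)
    (fun s i j => if i = s.1 ∧ j = s.2.1 then 1 else 0)
    (fun s i j => if i = s.2.1 ∧ j = s.2.2 then 1 else 0)
    (fun s i j => if i = s.2.2 ∧ j = s.1 then 1 else 0) ?_ ?_
  · intro i i' j j' k k'
    rw [sum_eq_single (i, j, k)]
    · by_cases h1 : i = i' <;> by_cases h2 : j = j' <;> by_cases h3 : k = k' <;>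
        simp [h1, h2, h3, Ne.symm, eq_comm]
    · rintro ⟨x, y, z⟩ _ hne
      by_cases h1 : i = x <;> by_cases h2 : j = y <;> by_cases h3 : k = z
      · exact absurd (by rw [h1, h2, h3]) hne
      all_goals simp [h1, h2, h3]
    · simp
  · simp only [Fintype.card_prod, Fintype.card_fin]
    exact le_of_eq (by ring)

theorem adm_trivial {t : ℝ} (ht0 : 0 ≤ t) :
    Adm (fun n r => TermRank K n n n ⌊(n : ℝ) ^ t⌋₊ r) 3 := by
  refine ⟨1, fun n hn => ⟨n * n * n, ?_, ?_⟩⟩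
  · push_cast
    rw [one_mul]
    have : (n : ℝ) ^ (3 : ℝ) = n * n * n := by
      have h : ((3 : ℕ) : ℝ) = 3 := by norm_num
      rw [← h, Real.rpow_natCast]; ring
    rw [this]
  · have hn1 : (1 : ℝ) ≤ n := by exact_mod_cast hn
    refine term_of_rect (rect_trivial n n n) ?_
    exact Nat.le_mul_of_pos_right _ (one_le_floor (Real.one_le_rpow hn1 ht0))

theorem term_eq_rect (K : Type) [Field K] {t : ℝ} (ht0 : 0 ≤ t) (ht1 : t ≤ 1) :
    termOmega K t = rectOmega K (1 - t) :=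
  (growth_eq_of ⟨3, adm_trivial ht0⟩ (fun τ h => by linarith [two_le_of_adm h])
    (fun _ _ h hlt => adm_rect_of_term ht0 ht1 hlt h)
    (fun _ h => adm_term_of_rect ht0 ht1 h)).symm

theorem two_le_termOmega (K : Type) [Field K] {t : ℝ} (ht0 : 0 ≤ t) : 2 ≤ termOmega K t :=
  le_csInf ⟨3, adm_trivial ht0⟩ fun _ h => two_le_of_adm (K := K) h

theorem omega_le_add (K : Type) [Field K] {t : ℝ} (ht0 : 0 ≤ t) :
    rectOmega K 1 ≤ termOmega K t + t := by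
  rw [← sub_le_iff_le_add]
  refine le_csInf ⟨3, adm_trivial ht0⟩ fun τ h => ?_
  rw [sub_le_iff_le_add]
  have h1 : Adm (fun n r => RectRank K n n ⌊(n : ℝ) ^ (1 : ℝ)⌋₊ r) (τ + t) := by
    obtain ⟨C, h⟩ := h
    refine ⟨C, fun n hn => ?_⟩
    obtain ⟨r, hr, hP⟩ := h n hn
    refine ⟨r * ⌊(n : ℝ) ^ t⌋₊, ?_, ?_⟩
    rotate_left
    · simp only [Real.rpow_one, Nat.floor_natCast]
      exact hP.rect
    · push_cast
      have hn0 : (0 : ℝ) < n := by exact_mod_cast hn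
      rw [Real.rpow_add hn0, ← mul_assoc]
      have := Nat.floor_le (show (0 : ℝ) ≤ (n : ℝ) ^ t by positivity)
      have h3 : (0 : ℝ) ≤ C * (n : ℝ) ^ τ := le_trans (by positivity) hr
      gcongr
  refine csInf_le ?_ h1
  refine ⟨2, fun σ hσ => ?_⟩
  have := adm_term_of_rect (K := K) (t := 0) (τ := σ) le_rfl zero_le_one (by
    simpa [Adm] using hσ)
  exact two_le_of_adm this

theorem omega_two_iff (K : Type) [Field K] :
    rectOmega K 1 = 2 ↔ ∀ t : ℝ, 0 < t → t ≤ 1 → termOmega K t = 2 := by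
  constructor
  · intro h t ht0 ht1
    refine le_antisymm ?_ (two_le_termOmega K ht0.le)
    rw [← h]
    have h0 : rectOmega K 1 = termOmega K 0 := by
      rw [term_eq_rect K le_rfl zero_le_one, sub_zero]
    rw [h0]
    refine csInf_le_csInf ⟨2, fun τ h => two_le_of_adm (K := K) h⟩ ⟨3, adm_trivial le_rfl⟩ ?_
    rintro τ ⟨C, h⟩
    refine ⟨C, fun n hn => ?_⟩
    obtain ⟨r, hr, hP⟩ := h n hn
    have hn1 : (1 : ℝ) ≤ n := by exact_mod_cast hn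
    refine ⟨r, hr, term_of_rect (m := n) ?_ ?_⟩
    · have h4 := TermRank.rect hP
      simpa using h4
    · exact Nat.le_mul_of_pos_right _ (one_le_floor (Real.one_le_rpow hn1 ht0.le))
  · intro h
    have h0 : rectOmega K 1 = termOmega K 0 := by
      rw [term_eq_rect K le_rfl zero_le_one, sub_zero]
    refine le_antisymm (le_of_forall_pos_le_add fun ε hε => ?_) ?_
    · have h1 := omega_le_add K (t := min ε 1) (lt_min hε one_pos).le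
      rw [h _ (lt_min hε one_pos) (min_le_right _ _)] at h1
      exact h1.trans (by linarith [min_le_left ε 1])
    · rw [h0]; exact two_le_termOmega K le_rfl

end Pool.Agent.H714.Term
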